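import Pool.Agent.Lib.MP_9f2731_nt.GP.All
import Pool.Agent.Lib.MP_9f2731_nt.GP.Alm.HandIn

/-!
Almost every prime in suitable progressions is the first term of a generalized Cunningham chain of
the second kind of given length, with a ratio composed of any `T(k)` given primes.
-/

namespace Pool.Agent.Results.MP_9f2731_nt.AlmostAllPrimes

theorem result (k : ℕ) (ε : ℝ) (hε : 0 < ε) :
    ∃ T : ℕ, ∀ S : Finset ℕ, (∀ q ∈ S, q.Prime) → T ≤ S.card → ∀ δ : ℝ, 0 < δ →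
      ∃ X₀ : ℝ, ∀ X : ℕ, X₀ ≤ X → ∃ Q : ℕ, 1 ≤ Q ∧ (Q : ℝ) ≤ Real.exp (Real.log X ^ ε) ∧
        X / (4 * Real.log X) ≤ (({b : ℕ | 1 ≤ b ∧ b ≤ X ∧ (Q * b + 1).Prime}.ncard : ℕ) : ℝ) ∧
        (({b : ℕ | 1 ≤ b ∧ b ≤ X ∧ (Q * b + 1).Prime ∧ ¬ ∃ r : ℕ, 2 ≤ r ∧
          (r : ℝ) ≤ Real.exp (Real.log X ^ ε) ∧ (∀ q : ℕ, q.Prime → q ∣ r → q ∈ S) ∧
          ∃ p : ℕ → ℕ, p 1 = Q * b + 1 ∧ (∀ i, 1 ≤ i → i ≤ k → (p i).Prime) ∧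
            ∀ i, 1 ≤ i → (p (i + 1) : ℤ) = r * p i - (r - 1)}.ncard : ℕ) : ℝ) ≤
          δ * (({b : ℕ | 1 ≤ b ∧ b ≤ X ∧ (Q * b + 1).Prime}.ncard : ℕ) : ℝ) :=
  Pool.Agent.Lib.MP_9f2731_nt.GP.Alm.alm_handIn Pool.Agent.Lib.MP_9f2731_nt.GP.gpAll.2 k ε hε

end Pool.Agent.Results.MP_9f2731_nt.AlmostAllPrimes
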