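import Pool.Agent.Lib.MP_9f2731_nt.QL.All
import Pool.Agent.Lib.MP_9f2731_nt.QL.HandIn

/-!
Almost every prime in suitable progressions is the first term of a generalized Cunningham chain of
the second kind of given length, with a quasi-polylogarithmic ratio.
-/

namespace Pool.Agent.Results.MP_9f2731_nt.AlmostAllSmallRatio

theorem result (k : ℕ) (δ : ℝ) (hδ : 0 < δ) :
    ∃ X₀ : ℝ, ∀ X : ℕ, X₀ ≤ X → ∃ Q : ℕ, 1 ≤ Q ∧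
      (Q : ℝ) ≤ Real.exp (Real.log (Real.log X) ^ 6) ∧
      X / (4 * Real.log X) ≤ (({b : ℕ | 1 ≤ b ∧ b ≤ X ∧ (Q * b + 1).Prime}.ncard : ℕ) : ℝ) ∧
      (({b : ℕ | 1 ≤ b ∧ b ≤ X ∧ (Q * b + 1).Prime ∧ ¬ ∃ r : ℕ, 2 ≤ r ∧
        (r : ℝ) ≤ Real.exp (Real.log (Real.log X) ^ 3) ∧
        ∃ p : ℕ → ℕ, p 1 = Q * b + 1 ∧ (∀ i, 1 ≤ i → i ≤ k → (p i).Prime) ∧
          ∀ i, 1 ≤ i → (p (i + 1) : ℤ) = r * p i - (r - 1)}.ncard : ℕ) : ℝ) ≤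
        δ * (({b : ℕ | 1 ≤ b ∧ b ≤ X ∧ (Q * b + 1).Prime}.ncard : ℕ) : ℝ) :=
  Pool.Agent.Lib.MP_9f2731_nt.QL.ql_almost Pool.Agent.Lib.MP_9f2731_nt.QL.qlFib k δ hδ

end Pool.Agent.Results.MP_9f2731_nt.AlmostAllSmallRatio
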