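import Pool.Agent.Lib.BE.AllR

/-!
Sequences `x j = g ^ j * m j * n + h j`, `0 ≤ j ≤ L`, of almost primes with ratio exactly `g` (for example 2), up to
fixed errors, with primes at `k` equally spaced places. The pairs `(m j, h j)` are fixed elements of an arbitrary set
of pairs with infinitely many quotients `h / m`: for example `(1, h)` (bounded errors) or `(m, 1)` (exact shift).
-/

namespace Pool.Agent.Lib.MP_9f2731_nt.Old.BoundedErrorChains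

theorem result (k : ℕ) (hk : 1 ≤ k) :
    ∃ L C : ℕ, ∀ (g M : ℕ) (S : Set (ℕ × ℤ)), 1 ≤ g → 1 ≤ M → (∀ s ∈ S, 1 ≤ s.1) →
      ((fun s : ℕ × ℤ => (s.2 : ℚ) / s.1) '' S).Infinite →
      (∀ s ∈ S, IsCoprime (M : ℤ) s.2 ∧ IsCoprime (g : ℤ) s.2 ∧ ∀ s' ∈ S, IsCoprime (s'.1 : ℤ) s.2) →
      ∃ (m : ℕ → ℕ) (h : ℕ → ℤ) (a d : ℕ), 1 ≤ d ∧ a + (k - 1) * d ≤ L ∧ (∀ j, j ≤ L → (m j, h j) ∈ S) ∧
        (∀ i j, i < j → j ≤ L → (m i : ℤ) * h j ≠ m j * h i) ∧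
        {n : ℕ | M ∣ n ∧ ∃ x : ℕ → ℕ, (∀ j, j ≤ L → (x j : ℤ) = (g : ℤ) ^ j * m j * n + h j ∧ 1 ≤ x j ∧
            (x j).primeFactorsList.length ≤ C) ∧
          ∀ i, i < k → (x (a + i * d)).Prime}.Infinite :=
  Pool.Agent.Lib.BE.chAll k hk

end Pool.Agent.Lib.MP_9f2731_nt.Old.BoundedErrorChains
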