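import Pool.Agent.Lib.MP_9f2731_nt.CG.All
import Pool.Agent.Lib.MP_9f2731_nt.CG.HandIn

/-!
Among any K(m) multipliers there are m + 1 multipliers g such that, for every k and with a quasi-polylogarithmic ratio r, the
numbers g r^i n + 1 (i < k) are all prime, while all the numbers h r^i n + 1 with 1 ≤ h ≤ L, i < k have at most C(L) prime
factors, for a positive proportion of n up to a small factor s. For the powers of 2: generalized Cunningham chains of the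
second kind of every length k, every term of which starts a sequence with ratio exactly 2 and arbitrary length L, consisting
of numbers with at most C(L) prime factors, with primes at m + 1 fixed places.
-/

namespace Pool.Agent.Lib.MP_9f2731_nt.Old.CunninghamGrids

theorem result :
    ∀ m : ℕ, ∃ K : ℕ, ∀ G : Finset ℕ, K ≤ G.card → (∀ g ∈ G, 1 ≤ g) →
      ∃ J : Finset ℕ, J ⊆ G ∧ J.card = m + 1 ∧ ∀ L : ℕ, ∃ C : ℕ, ∀ k : ℕ,
        ∃ (c X₀ : ℝ) (𝒥 : ℕ → Finset ℕ), 0 < c ∧ (∀ X : ℕ, 𝒥 X ⊆ G ∧ (𝒥 X).card = m + 1) ∧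
          (∀ X₁ : ℕ, ∃ X : ℕ, X₁ ≤ X ∧ 𝒥 X = J) ∧ ∀ X : ℕ, X₀ ≤ X →
            c * X ≤ (({b : ℕ | 1 ≤ b ∧ b ≤ X ∧ ∃ s r : ℕ, 1 ≤ s ∧ 2 ≤ r ∧
              (s : ℝ) ≤ Real.exp (Real.log (Real.log X) ^ 6) ∧
              (r : ℝ) ≤ Real.exp (Real.log (Real.log X) ^ 3) ∧
              ∀ i : ℕ, i < k → (∀ g ∈ 𝒥 X, (g * r ^ i * (b * s) + 1).Prime) ∧
                ∀ h : ℕ, 1 ≤ h → h ≤ L →
                  (h * r ^ i * (b * s) + 1).primeFactorsList.length ≤ C}.ncard : ℕ) : ℝ) :=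
  Pool.Agent.Lib.MP_9f2731_nt.CG.cg_handin Pool.Agent.Lib.MP_9f2731_nt.CG.cgAll.1

end Pool.Agent.Lib.MP_9f2731_nt.Old.CunninghamGrids
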