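import Pool.Agent.Lib.MP_9f2731_nt.GP.All
import Pool.Agent.Lib.MP_9f2731_nt.GP.HandIn

/-!
Generalized Cunningham chains of the second kind of every length: `p (i + 1) = r p i - (r - 1)`
with a ratio `r = p 1 ^ o(1)` composed of any `T(k)` given primes. Equivalently, the shifted primes
contain arbitrarily long geometric progressions with integer ratio.
-/

namespace Pool.Agent.Lib.MP_9f2731_nt.Old.GeometricProgressions

theorem result (k : ℕ) (ε : ℝ) (hε : 0 < ε) :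
    ∃ T : ℕ, ∀ S : Finset ℕ, (∀ q ∈ S, q.Prime) → T ≤ S.card →
      ∃ c : ℝ, 0 < c ∧ ∃ X₀ : ℝ, ∀ X : ℕ, X₀ ≤ X →
        c * X ≤ (({a : ℕ | 1 ≤ a ∧ a ≤ X ∧ ∃ s r : ℕ, 1 ≤ s ∧ 2 ≤ r ∧
          (∀ q : ℕ, q.Prime → q ∣ s * r → q ∈ S) ∧
          (s : ℝ) ≤ Real.exp (Real.log X ^ ε) ∧ (r : ℝ) ≤ Real.exp (Real.log X ^ ε) ∧
          ∃ p : ℕ → ℕ, p 1 = a * s + 1 ∧ (∀ i, 1 ≤ i → i ≤ k → (p i).Prime) ∧
            ∀ i, 1 ≤ i → (p (i + 1) : ℤ) = r * p i - (r - 1)}.ncard : ℕ) : ℝ) :=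
  Pool.Agent.Lib.MP_9f2731_nt.GP.gp_handIn Pool.Agent.Lib.MP_9f2731_nt.GP.gpAll.1 k ε hε

end Pool.Agent.Lib.MP_9f2731_nt.Old.GeometricProgressions
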