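import Pool.Agent.Lib.MP_9f2731_nt.H.AllE

/-!
For all `m` in an interval of length `X` outside an exceptional set of at most `X ^ (3/4 + η)`
elements, and in every window of `W ≥ (log X)^C` consecutive exponents, all but `C W / Λ` of the
numbers `m 2^b + 1` have more than `(1 - ε) Λ` prime factors,
`Λ = log (log min(W, X) / log log X)`.
-/

namespace Pool.Agent.Results.MP_9f2731_nt.ManyPrimeFactors

theorem result (η ε : ℝ) (hη : 0 < η) (hε : 0 < ε) (hε1 : ε < 1) :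
    ∃ C : ℝ, 1 ≤ C ∧ ∀ X : ℕ, C ≤ X → ∀ M : ℕ, ∃ E : Finset ℕ,
      (E.card : ℝ) ≤ (X : ℝ) ^ (3 / 4 + η) ∧
      ∀ m : ℕ, M < m → m ≤ M + X → m ∉ E → ∀ a W : ℕ, Real.log X ^ C ≤ W → ∀ Λ : ℝ,
        Λ = Real.log (Real.log (min W X : ℕ) / Real.log (Real.log X)) →
        0 < Λ ∧ (((Finset.Ico a (a + W)).filter fun b =>
          ((m * 2 ^ b + 1).primeFactors.card : ℝ) ≤ (1 - ε) * Λ).card : ℝ) ≤ C * W / Λ :=
  Pool.Agent.Lib.MP_9f2731_nt.H.mainE_explicit η ε hη hε hε1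

end Pool.Agent.Results.MP_9f2731_nt.ManyPrimeFactors
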