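import Pool.Agent.Lib.MP_9f2731_nt.QL.All
import Pool.Agent.Lib.MP_9f2731_nt.QL.HandIn

/-!
Generalized Cunningham chains of the second kind of every length with a quasi-polylogarithmic ratio:
`p (i + 1) = r p i - (r - 1)` with `r ≤ exp ((log log X) ^ 3)`, for a positive proportion of all `a`,
`p 1 = a s + 1`, `s ≤ exp ((log log X) ^ 6)`.
-/

namespace Pool.Agent.Results.MP_9f2731_nt.SmallRatios

theorem result (k : ℕ) :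
    ∃ c : ℝ, 0 < c ∧ ∃ X₀ : ℝ, ∀ X : ℕ, X₀ ≤ X →
      c * X ≤ (({a : ℕ | 1 ≤ a ∧ a ≤ X ∧ ∃ s r : ℕ, 1 ≤ s ∧ 2 ≤ r ∧
        (s : ℝ) ≤ Real.exp (Real.log (Real.log X) ^ 6) ∧
        (r : ℝ) ≤ Real.exp (Real.log (Real.log X) ^ 3) ∧
        ∃ p : ℕ → ℕ, p 1 = a * s + 1 ∧ (∀ i, 1 ≤ i → i ≤ k → (p i).Prime) ∧
          ∀ i, 1 ≤ i → (p (i + 1) : ℤ) = r * p i - (r - 1)}.ncard : ℕ) : ℝ) :=
  Pool.Agent.Lib.MP_9f2731_nt.QL.ql_small Pool.Agent.Lib.MP_9f2731_nt.QL.qlFia k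

end Pool.Agent.Results.MP_9f2731_nt.SmallRatios
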