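import Pool.Agent.Lib.MP_9f2731_nt.Union

/-!
For all `m` in an interval of length `X` outside an exceptional set of at most
`X ^ (3/4 + 1/(4A) + η + ε)` elements, and for every exponent `a ≤ X ^ η`, one of the first
`(log X)^A` terms of `m 2^a + 1, m 2^(a+1) + 1, ...` is composite; here `A > 1` is arbitrary.
-/

namespace Pool.Agent.Results.MP_9f2731_nt.StartingPrimes

open Filter Pool.Agent.Lib.MP_9f2731_nt

theorem result (A η ε : ℝ) (hA : 1 < A) (hη : 0 ≤ η) (hε : 0 < ε) :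
    ∃ X₀ : ℕ, ∀ X : ℕ, X₀ ≤ X → ∀ M : ℕ, ∃ E : Finset ℕ,
      (E.card : ℝ) ≤ (X : ℝ) ^ (3 / 4 + 1 / (4 * A) + η + ε) ∧
      ∀ m : ℕ, M < m → m ≤ M + X → m ∉ E → ∀ a : ℕ, (a : ℝ) ≤ (X : ℝ) ^ η →
        ∃ i q : ℕ, (i : ℝ) < Real.log X ^ A ∧ q.Prime ∧ (q : ℝ) ≤ Real.log X ^ (2 * A) ∧
          q ∣ m * 2 ^ (a + i) + 1 ∧ q < m * 2 ^ (a + i) + 1 := by
  classical
  obtain ⟨X₀, hX₀⟩ := rough_bound_window hA hη hε
  have hcast : Tendsto (fun X : ℕ => (X : ℝ)) atTop atTop := tendsto_natCast_atTop_atTop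
  have hlogt : Tendsto (fun X : ℕ => Real.log X) atTop atTop := Real.tendsto_log_atTop.comp hcast
  have f1 : ∀ᶠ X : ℕ in atTop, (1 : ℝ) ≤ Real.log X ^ (2 * A) :=
    ((tendsto_rpow_atTop (by linarith : 0 < 2 * A)).comp hlogt).eventually_ge_atTop _
  obtain ⟨X₁, hX₁⟩ := eventually_atTop.mp f1
  refine ⟨max X₀ X₁, fun X hX M => ?_⟩
  have g1 := hX₁ X ((le_max_right _ _).trans hX)
  set L := ⌈Real.log X ^ A⌉₊ with hL
  set Z := ⌊Real.log X ^ (2 * A)⌋₊ with hZ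
  refine ⟨(Finset.Icc (M + 1) (M + X)).filter fun m => ∃ a : ℕ, (a : ℝ) ≤ (X : ℝ) ^ η ∧
    RoughRunZ Z L m a, ?_, ?_⟩
  · apply hX₀ X ((le_max_left _ _).trans hX) M
    intro m hm
    obtain ⟨h1, h2⟩ := Finset.mem_filter.mp hm
    have h3 := Finset.mem_Icc.mp h1
    exact ⟨by omega, h3.2, h2⟩
  · intro m hm1 hm2 hm3 a ha
    have h1 : ¬ RoughRunZ Z L m a := fun h =>
      hm3 (Finset.mem_filter.mpr ⟨Finset.mem_Icc.mpr ⟨by omega, hm2⟩, a, ha, h⟩)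
    unfold RoughRunZ at h1
    push Not at h1
    obtain ⟨i, hi, q, hq, hqL, hqd, hqn⟩ := h1
    refine ⟨i, q, Nat.lt_ceil.mp hi, hq, ?_, hqd, ?_⟩
    · exact (Nat.le_floor_iff (by positivity)).mp hqL
    · exact lt_of_le_of_ne (Nat.le_of_dvd (Nat.succ_pos _) hqd) hqn

end Pool.Agent.Results.MP_9f2731_nt.StartingPrimes
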